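import Mathlib
import Pool.Agent.R37.Tree
import Pool.Agent.R37.TreeMk

/-!
# Strong tree-breadth is not bounded by a constant times tree-breadth

The graph consists of a base path; at every vertex `μ` of the path four copies of a long
grid strip of width three are glued along the closed neighbourhood of `μ`.
-/

set_option autoImplicit false

namespace Pool.Agent.Results.MP_3ffbec_co.NotBounded

open Pool.Agent.R37

/-- The disk of radius `r` around `v`. -/
def disk {V : Type} (G : SimpleGraph V) (v : V) (r : ℕ) : Set V := {u | G.edist v u ≤ r}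

/-- `T` with the bags `bag` is a tree decomposition of `G`. -/
structure IsTreeDec {V : Type} (G : SimpleGraph V) {ι : Type} (T : SimpleGraph ι)
    (bag : ι → Set V) : Prop where
  isTree : T.IsTree
  vertex_mem : ∀ v : V, ∃ t, v ∈ bag t
  edge_mem : ∀ u v : V, G.Adj u v → ∃ t, u ∈ bag t ∧ v ∈ bag t
  connected : ∀ v : V, (T.induce {t | v ∈ bag t}).Connected

/-- `G` has a tree decomposition of breadth at most `r`. -/
def HasBreadth {V : Type} (G : SimpleGraph V) (r : ℕ) : Prop :=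
  ∃ (ι : Type) (_ : Finite ι) (T : SimpleGraph ι) (bag : ι → Set V),
    IsTreeDec G T bag ∧ ∀ t, ∃ v, bag t ⊆ disk G v r

/-- `G` has a tree decomposition in which every bag is the disk of radius `r` around one of
its vertices. -/
def HasStrongBreadth {V : Type} (G : SimpleGraph V) (r : ℕ) : Prop :=
  ∃ (ι : Type) (_ : Finite ι) (T : SimpleGraph ι) (bag : ι → Set V),
    IsTreeDec G T bag ∧ ∀ t, ∃ v ∈ bag t, bag t = disk G v r

/-- tree-breadth -/
noncomputable def tb {V : Type} (G : SimpleGraph V) : ℕ := sInf {r | HasBreadth G r}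

/-- strong tree-breadth -/
noncomputable def stb {V : Type} (G : SimpleGraph V) : ℕ := sInf {r | HasStrongBreadth G r}

/-! ### Distances from potentials -/

theorem edist_of_potential {V : Type} (G : SimpleGraph V) (s : V) (F : V → ℕ)
    (hs : F s = 0) (h0 : ∀ y, F y = 0 → y = s)
    (hlip : ∀ y z, G.Adj y z → F y ≤ F z + 1)
    (hstep : ∀ y, F y ≠ 0 → ∃ z, G.Adj y z ∧ F z + 1 = F y) (y : V) :
    G.edist s y = F y := by
  apply le_antisymm
  · have key : ∀ n, ∀ y, F y = n → ∃ p : G.Walk y s, p.length = n := by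
      intro n
      induction n with
      | zero =>
        intro y hy
        have := h0 y hy
        subst this
        exact ⟨SimpleGraph.Walk.nil, rfl⟩
      | succ n ih =>
        intro y hy
        obtain ⟨z, hz, hz2⟩ := hstep y (by omega)
        obtain ⟨p, hp⟩ := ih z (by omega)
        exact ⟨SimpleGraph.Walk.cons hz p, by simp [hp]⟩
    obtain ⟨p, hp⟩ := key (F y) y rfl
    rw [SimpleGraph.edist_comm]
    calc G.edist y s ≤ p.length := SimpleGraph.Walk.edist_le p
      _ = F y := by rw [hp]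
  · have key : ∀ (a b : V) (p : G.Walk a b), F b ≤ F a + p.length := by
      intro a b p
      induction p with
      | nil => simp
      | @cons a c b h p ih =>
        have := hlip c a h.symm
        rw [SimpleGraph.Walk.length_cons]
        omega
    rw [SimpleGraph.edist]
    refine le_iInf fun p => ?_
    have := key s y p
    rw [hs, zero_add] at this
    exact_mod_cast this

/-! ### Separation in tree decompositions -/

section sep

variable {V ι : Type} {G : SimpleGraph V} {T : SimpleGraph ι} {bag : ι → Set V}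

/-- `u` lies below `q` (or equals `q`) -/
def Bel (R : Rooting T) (q u : ι) : Prop := ∃ i : ℕ, R.par^[i] u = q

theorem Bel.refl (R : Rooting T) (q : ι) : Bel R q q := ⟨0, rfl⟩

theorem not_bel_root (R : Rooting T) {q : ι} (hq : q ≠ R.root) : ¬ Bel R q R.root := by
  rintro ⟨i, hi⟩
  apply hq
  rw [← hi]
  exact Function.iterate_fixed R.par_root i

theorem bel_crossing (R : Rooting T) {q u u' : ι} (h : T.Adj u u') (hu : Bel R q u)
    (hu' : ¬ Bel R q u') : u = q ∧ u' = R.par q := by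
  rcases R.adj u u' h with ⟨h1, h2⟩ | ⟨h1, h2⟩
  · obtain ⟨i, hi⟩ := hu
    cases i with
    | zero =>
      have : u = q := hi
      subst this
      exact ⟨rfl, h2.symm⟩
    | succ j =>
      exfalso
      apply hu'
      refine ⟨j, ?_⟩
      rw [← h2]
      rw [Function.iterate_succ_apply] at hi
      exact hi
  · exfalso
    apply hu'
    obtain ⟨i, hi⟩ := hu
    refine ⟨i + 1, ?_⟩
    rw [Function.iterate_succ_apply, h2]
    exact hi

/-- all nodes containing a vertex outside of the adhesion set lie on the same side -/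
theorem same_side (htd : IsTreeDec G T bag) (R : Rooting T) {q : ι} {v : V}
    (hv : ¬ (v ∈ bag q ∧ v ∈ bag (R.par q))) {s t : ι} (hs : v ∈ bag s) (ht : v ∈ bag t)
    (hs' : ¬ Bel R q s) : ¬ Bel R q t := by
  intro ht'
  obtain ⟨p⟩ := (htd.connected v).preconnected ⟨t, ht⟩ ⟨s, hs⟩
  obtain ⟨d, -, hd1, hd2⟩ := p.exists_boundary_dart {x | Bel R q x.1} ht' hs'
  have hadj : T.Adj d.fst.1 d.snd.1 := d.adj
  obtain ⟨h1, h2⟩ := bel_crossing R hadj hd1 hd2
  apply hv
  rw [← h2, ← h1]
  exact ⟨d.fst.2, d.snd.2⟩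

/-- `v` lies in a bag outside of the part below `q` -/
def Out (bag : ι → Set V) (R : Rooting T) (q : ι) (v : V) : Prop := ∃ t, v ∈ bag t ∧ ¬ Bel R q t

theorem Out.step (htd : IsTreeDec G T bag) {R : Rooting T} {q : ι} {v w : V} (h : Out bag R q v)
    (hv : ¬ (v ∈ bag q ∧ v ∈ bag (R.par q))) (hvw : G.Adj v w) : Out bag R q w := by
  obtain ⟨s, hs, hs'⟩ := h
  obtain ⟨t, ht1, ht2⟩ := htd.edge_mem v w hvw
  exact ⟨t, ht2, same_side htd R hv hs ht1 hs'⟩

theorem Out.false (htd : IsTreeDec G T bag) {R : Rooting T} {q t : ι} {v : V} (h : Out bag R q v)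
    (hv : ¬ (v ∈ bag q ∧ v ∈ bag (R.par q))) (ht : v ∈ bag t) (ht' : Bel R q t) : False := by
  obtain ⟨s, hs, hs'⟩ := h
  exact same_side htd R hv hs ht hs' ht'

theorem exists_crossing (R : Rooting T) (P : ι → Prop) (hroot : P R.root) (t : ι) (ht : ¬ P t) :
    ∃ q, ¬ P q ∧ P (R.par q) ∧ q ≠ R.root ∧ Bel R q t := by
  induction hn : R.dep t using Nat.strong_induction_on generalizing t with
  | _ n ih =>
    have hne : t ≠ R.root := by
      rintro rfl
      exact ht hroot
    by_cases hp : P (R.par t)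
    · exact ⟨t, ht, hp, hne, Bel.refl R t⟩
    · have hd := R.dep_par t hne
      obtain ⟨q, h1, h2, h3, i, hi⟩ := ih _ (by omega) (R.par t) hp rfl
      exact ⟨q, h1, h2, h3, i + 1, by rw [Function.iterate_succ_apply]; exact hi⟩

end sep

/-! ### The graph -/

/-- The vertices: `h = 0` is the base path (with the page label `(0,0)`), and the vertices with
`h ≥ 1` lie on the copy `c` of the strip at the vertex `m` of the base path. -/
@[ext]
structure Vx (n L : ℕ) where
  x : ℕ
  h : ℕ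
  m : ℕ
  c : ℕ
  hx : x ≤ n
  hh : h ≤ L
  hm : m ≤ n
  hc : c < 4
  base : h = 0 → m = 0 ∧ c = 0
  page : h ≠ 0 → x ≤ m + 1 ∧ m ≤ x + 1

variable {n L : ℕ}

instance : Finite (Vx n L) := by
  apply Finite.of_injective (β := Fin (n + 1) × Fin (L + 1) × Fin (n + 1) × Fin 4)
    (fun v => (⟨v.x, by have := v.hx; omega⟩, ⟨v.h, by have := v.hh; omega⟩,
      ⟨v.m, by have := v.hm; omega⟩, ⟨v.c, v.hc⟩))
  intro v w hvw
  simp only [Prod.mk.injEq, Fin.mk.injEq] at hvw
  obtain ⟨h1, h2, h3, h4⟩ := hvw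
  exact Vx.ext h1 h2 h3 h4

/-- The graph: a base path with grid strips. -/
def gr (n L : ℕ) : SimpleGraph (Vx n L) where
  Adj u v := (u.h = v.h ∧ u.m = v.m ∧ u.c = v.c ∧ (u.x + 1 = v.x ∨ v.x + 1 = u.x)) ∨
    (u.x = v.x ∧ ((u.h + 1 = v.h ∧ (u.h = 0 ∨ (u.m = v.m ∧ u.c = v.c))) ∨
      (v.h + 1 = u.h ∧ (v.h = 0 ∨ (u.m = v.m ∧ u.c = v.c)))))
  symm := ⟨by
    intro u v h
    omega⟩
  loopless := ⟨by
    intro u h
    omega⟩

theorem gr_adj (u v : Vx n L) : (gr n L).Adj u v ↔
    ((u.h = v.h ∧ u.m = v.m ∧ u.c = v.c ∧ (u.x + 1 = v.x ∨ v.x + 1 = u.x)) ∨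
    (u.x = v.x ∧ ((u.h + 1 = v.h ∧ (u.h = 0 ∨ (u.m = v.m ∧ u.c = v.c))) ∨
      (v.h + 1 = u.h ∧ (v.h = 0 ∨ (u.m = v.m ∧ u.c = v.c)))))) := Iff.rfl

/-- the distance function -/
def F (s y : Vx n L) : ℕ :=
  if s.h ≠ 0 ∧ y.h ≠ 0 ∧ s.m = y.m ∧ s.c = y.c then
    (s.h - y.h) + (y.h - s.h) + ((s.x - y.x) + (y.x - s.x))
  else s.h + y.h + ((s.x - y.x) + (y.x - s.x))

theorem F_self (s : Vx n L) : F s s = 0 := by
  unfold F
  split_ifs with h
  · omega
  · have := s.base
    omega

theorem F_eq_zero (s y : Vx n L) (h : F s y = 0) : y = s := by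
  unfold F at h
  have h1 := s.base
  have h2 := y.base
  split_ifs at h with h3
  · ext <;> omega
  · ext <;> omega

theorem F_lip (s y z : Vx n L) (h : (gr n L).Adj y z) : F s y ≤ F s z + 1 := by
  have h' : (y.h = z.h ∧ y.m = z.m ∧ y.c = z.c ∧ (y.x + 1 = z.x ∨ z.x + 1 = y.x)) ∨
    (y.x = z.x ∧ ((y.h + 1 = z.h ∧ (y.h = 0 ∨ (y.m = z.m ∧ y.c = z.c))) ∨
      (z.h + 1 = y.h ∧ (z.h = 0 ∨ (y.m = z.m ∧ y.c = z.c))))) := h
  unfold F
  split_ifs <;> omega

theorem F_step (s y : Vx n L) (h : F s y ≠ 0) : ∃ z, (gr n L).Adj y z ∧ F s z + 1 = F s y := by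
  have hs1 := s.hx
  have hs2 := s.hh
  have hs3 := s.hm
  have hs4 := s.hc
  have hs5 := s.base
  have hs6 := s.page
  have hy1 := y.hx
  have hy2 := y.hh
  have hy3 := y.hm
  have hy4 := y.hc
  have hy5 := y.base
  have hy6 := y.page
  by_cases hy0 : y.h = 0
  · obtain ⟨hm0, hc0⟩ := hy5 hy0
    rcases lt_trichotomy y.x s.x with hx | hx | hx
    · refine ⟨⟨y.x + 1, 0, 0, 0, by omega, by omega, by omega, by omega, by omega, by omega⟩,
        ?_, ?_⟩
      · rw [gr_adj]; dsimp only; omega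
      · unfold F at h ⊢
        dsimp only at h ⊢
        split_ifs at h ⊢ <;> omega
    · have hsh : s.h ≠ 0 := by
        unfold F at h
        split_ifs at h <;> omega
      refine ⟨⟨y.x, 1, s.m, s.c, by omega, by omega, by omega, by omega, by omega, by omega⟩,
        ?_, ?_⟩
      · rw [gr_adj]; dsimp only; omega
      · unfold F at h ⊢
        dsimp only at h ⊢
        split_ifs at h ⊢ <;> omega
    · refine ⟨⟨y.x - 1, 0, 0, 0, by omega, by omega, by omega, by omega, by omega, by omega⟩,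
        ?_, ?_⟩
      · rw [gr_adj]; dsimp only; omega
      · unfold F at h ⊢
        dsimp only at h ⊢
        split_ifs at h ⊢ <;> omega
  · by_cases hp : s.h ≠ 0 ∧ s.m = y.m ∧ s.c = y.c
    · obtain ⟨hp1, hp2, hp3⟩ := hp
      rcases lt_trichotomy y.x s.x with hx | hx | hx
      · refine ⟨⟨y.x + 1, y.h, y.m, y.c, by omega, by omega, by omega, by omega, by omega,
          by omega⟩, ?_, ?_⟩
        · rw [gr_adj]; dsimp only; omega
        · unfold F at h ⊢
          dsimp only at h ⊢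
          split_ifs at h ⊢ <;> omega
      · rcases lt_trichotomy y.h s.h with hh | hh | hh
        · refine ⟨⟨y.x, y.h + 1, y.m, y.c, by omega, by omega, by omega, by omega, by omega,
            by omega⟩, ?_, ?_⟩
          · rw [gr_adj]; dsimp only; omega
          · unfold F at h ⊢
            dsimp only at h ⊢
            split_ifs at h ⊢ <;> omega
        · exfalso
          unfold F at h
          split_ifs at h <;> omega
        · refine ⟨⟨y.x, y.h - 1, y.m, y.c, by omega, by omega, by omega, by omega, by omega,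
            by omega⟩, ?_, ?_⟩
          · rw [gr_adj]; dsimp only; omega
          · unfold F at h ⊢
            dsimp only at h ⊢
            split_ifs at h ⊢ <;> omega
      · refine ⟨⟨y.x - 1, y.h, y.m, y.c, by omega, by omega, by omega, by omega, by omega,
          by omega⟩, ?_, ?_⟩
        · rw [gr_adj]; dsimp only; omega
        · unfold F at h ⊢
          dsimp only at h ⊢
          split_ifs at h ⊢ <;> omega
    · by_cases hy1' : y.h = 1
      · refine ⟨⟨y.x, 0, 0, 0, by omega, by omega, by omega, by omega, by omega, by omega⟩,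
          ?_, ?_⟩
        · rw [gr_adj]; dsimp only; omega
        · unfold F at h ⊢
          dsimp only at h ⊢
          split_ifs at h ⊢ <;> omega
      · refine ⟨⟨y.x, y.h - 1, y.m, y.c, by omega, by omega, by omega, by omega, by omega,
          by omega⟩, ?_, ?_⟩
        · rw [gr_adj]; dsimp only; omega
        · unfold F at h ⊢
          dsimp only at h ⊢
          split_ifs at h ⊢ <;> omega

theorem edist_eq (s y : Vx n L) : (gr n L).edist s y = F s y :=
  edist_of_potential (gr n L) s (F s) (F_self s) (F_eq_zero s) (F_lip s) (F_step s) y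

theorem mem_disk (s y : Vx n L) (r : ℕ) : y ∈ disk (gr n L) s r ↔ F s y ≤ r := by
  rw [disk, Set.mem_ofPred_eq, edist_eq]
  exact Nat.cast_le

/-- the vertices of the base path -/
def bv (n L y : ℕ) (hy : y ≤ n) : Vx n L :=
  ⟨y, 0, 0, 0, hy, by omega, by omega, by omega, by omega, by omega⟩

/-- the distance of two numbers -/
def dd (a b : ℕ) : ℕ := (a - b) + (b - a)

theorem dd_tri (a b c : ℕ) : dd a c ≤ dd a b + dd b c := by
  unfold dd
  omega

theorem dd_self (a : ℕ) : dd a a = 0 := by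
  unfold dd
  omega

theorem dd_comm (a b : ℕ) : dd a b = dd b a := by
  unfold dd
  omega

theorem F_bv (s : Vx n L) (y : ℕ) (hy : y ≤ n) :
    F s (bv n L y hy) = s.h + dd s.x y := by
  unfold F bv dd
  simp

theorem F_foreign (s y : Vx n L) (h : y.c ≠ s.c) :
    F s y = s.h + y.h + dd s.x y.x := by
  unfold F dd
  rw [if_neg]
  intro h'
  exact h h'.2.2.2.symm

theorem bv_adj {y z : ℕ} (hy : y ≤ n) (hz : z ≤ n) (h : y + 1 = z ∨ z + 1 = y) :
    (gr n L).Adj (bv n L y hy) (bv n L z hz) :=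
  Or.inl ⟨rfl, rfl, rfl, h⟩

/-- the vertices of the strips -/
def pv (n L : ℕ) (x i μ c : ℕ) (hx : x ≤ n) (hi : i ≤ L) (hm : μ ≤ n) (hc : c < 4)
    (hi1 : 1 ≤ i) (h1 : x ≤ μ + 1) (h2 : μ ≤ x + 1) : Vx n L :=
  ⟨x, i, μ, c, hx, hi, hm, hc, fun h => by omega, fun _ => ⟨h1, h2⟩⟩

/-! ### There is no strong decomposition -/

/-- the rails on which the two disks cross -/
theorem rails {n r Hm Hq Xm Xq y : ℕ} (h1 : Hm ≤ Hq)
    (h2 : Hq < Hm + dd Xm Xq) (h3 : Hm + dd Xm y ≤ r)
    (h4 : Hq + dd Xq y ≤ r) (h5 : Xm ≤ n) (h6 : Xq ≤ n) :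
    ∃ k k' μ j j' : ℕ, k ≤ n ∧ k' ≤ n ∧ μ ≤ n ∧ k ≤ μ + 1 ∧ μ ≤ k + 1 ∧ k' ≤ μ + 1 ∧
      μ ≤ k' + 1 ∧ 1 ≤ j ∧ 1 ≤ j' ∧ Hm + j + dd Xm k = r ∧
      r < Hq + j + dd Xq k ∧ Hq + j' + dd Xq k' = r ∧
      r < Hm + j' + dd Xm k' := by
  unfold dd at *
  rcases lt_trichotomy Xm Xq with h | h | h
  · refine ⟨(Hq - Hm + Xm + Xq - 1) / 2, (Hq - Hm + Xm + Xq) / 2 + 1, (Hq - Hm + Xm + Xq) / 2,
      r - Hm - ((Hq - Hm + Xm + Xq - 1) / 2 - Xm), r - Hq - (Xq - ((Hq - Hm + Xm + Xq) / 2 + 1)),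
      ?_, ?_, ?_, ?_, ?_, ?_, ?_, ?_, ?_, ?_, ?_, ?_, ?_⟩ <;> omega
  · omega
  · refine ⟨(Xm + Xq - (Hq - Hm)) / 2 + 1, (Xm + Xq - (Hq - Hm) - 1) / 2,
      (Xm + Xq - (Hq - Hm)) / 2,
      r - Hm - (Xm - ((Xm + Xq - (Hq - Hm)) / 2 + 1)),
      r - Hq - ((Xm + Xq - (Hq - Hm) - 1) / 2 - Xq),
      ?_, ?_, ?_, ?_, ?_, ?_, ?_, ?_, ?_, ?_, ?_, ?_, ?_⟩ <;> omega

theorem exists_copy (a b d : ℕ) : ∃ c, c < 4 ∧ c ≠ a ∧ c ≠ b ∧ c ≠ d := by
  by_contra hcon
  have key : ∀ c, c < 4 → c = a ∨ c = b ∨ c = d := by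
    intro c hc
    by_contra h
    exact hcon ⟨c, hc, fun h1 => h (Or.inl h1), fun h1 => h (Or.inr (Or.inl h1)),
      fun h1 => h (Or.inr (Or.inr h1))⟩
  have a0 := key 0 (by norm_num)
  have a1 := key 1 (by norm_num)
  have a2 := key 2 (by norm_num)
  have a3 := key 3 (by norm_num)
  omega

theorem exists_far {n r X : ℕ} (hn : 2 * r + 1 ≤ n) : ∃ y0, y0 ≤ n ∧ r < dd X y0 := by
  unfold dd
  by_cases h : X ≤ r
  · exact ⟨n, le_rfl, by omega⟩
  · exact ⟨0, by omega, by omega⟩

section main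

variable {ι : Type} {T : SimpleGraph ι} {bag : ι → Set (Vx n L)}

/-- moving along the base path outside of the adhesion set -/
theorem out_base (htd : IsTreeDec (gr n L) T bag) (R : Rooting T) (q : ι)
    (hz : ∀ y (hy : y ≤ n), ¬ (bv n L y hy ∈ bag q ∧ bv n L y hy ∈ bag (R.par q)))
    {x : ℕ} (hx : x ≤ n) (start : Out bag R q (bv n L x hx)) :
    ∀ y (hy : y ≤ n), Out bag R q (bv n L y hy) := by
  have up : ∀ d, ∀ (hd : x + d ≤ n), Out bag R q (bv n L (x + d) hd) := by
    intro d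
    induction d with
    | zero => intro hd; exact start
    | succ d ih =>
      intro hd
      exact (ih (by omega)).step htd (hz _ _) (bv_adj _ _ (by omega))
  have down : ∀ d, ∀ y (hy : y ≤ n), y + d = x → Out bag R q (bv n L y hy) := by
    intro d
    induction d with
    | zero =>
      intro y hy h
      have : y = x := by omega
      subst this
      exact start
    | succ d ih =>
      intro y hy h
      exact (ih (y + 1) (by omega) (by omega)).step htd (hz _ _) (bv_adj _ _ (by omega))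
  intro y hy
  rcases le_total x y with h | h
  · obtain ⟨d, rfl⟩ := Nat.exists_eq_add_of_le h
    exact up d hy
  · exact down (x - y) y hy (by omega)

/-- crossing in a strip -/
theorem cross (htd : IsTreeDec (gr n L) T bag) (R : Rooting T) (q : ι)
    {k k' μ j j' c : ℕ} (hk : k ≤ n) (hk' : k' ≤ n) (hμ : μ ≤ n) (h1 : k ≤ μ + 1)
    (h2 : μ ≤ k + 1) (h3 : k' ≤ μ + 1) (h4 : μ ≤ k' + 1) (h5 : 1 ≤ j) (h6 : 1 ≤ j')
    (hjL : j ≤ L) (hjL' : j' ≤ L) (hc : c < 4)
    (hstart : Out bag R q (pv n L k j μ c hk hjL hμ hc h5 h1 h2))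
    (havoid : ∀ i (hi : i ≤ L) (hi1 : 1 ≤ i), j ≤ i →
      ¬ (pv n L k i μ c hk hi hμ hc hi1 h1 h2 ∈ bag q ∧
         pv n L k i μ c hk hi hμ hc hi1 h1 h2 ∈ bag (R.par q)))
    (htop : ∀ x (hx : x ≤ n) (a1 : x ≤ μ + 1) (a2 : μ ≤ x + 1) (hL : 1 ≤ L),
      ¬ (pv n L x L μ c hx le_rfl hμ hc hL a1 a2 ∈ bag q ∧
         pv n L x L μ c hx le_rfl hμ hc hL a1 a2 ∈ bag (R.par q)))
    (havoid' : ∀ i (hi : i ≤ L) (hi1 : 1 ≤ i), j' ≤ i →
      ¬ (pv n L k' i μ c hk' hi hμ hc hi1 h3 h4 ∈ bag q ∧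
         pv n L k' i μ c hk' hi hμ hc hi1 h3 h4 ∈ bag (R.par q))) :
    Out bag R q (pv n L k' j' μ c hk' hjL' hμ hc h6 h3 h4) := by
  have hL : 1 ≤ L := h5.trans hjL
  have up : ∀ d, ∀ (hd : j + d ≤ L),
      Out bag R q (pv n L k (j + d) μ c hk hd hμ hc (by omega) h1 h2) := by
    intro d
    induction d with
    | zero => intro hd; exact hstart
    | succ d ih =>
      intro hd
      refine (ih (by omega)).step htd (havoid _ _ _ (by omega)) ?_
      exact Or.inr ⟨rfl, Or.inl ⟨rfl, Or.inr ⟨rfl, rfl⟩⟩⟩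
  have t0 : Out bag R q (pv n L k L μ c hk le_rfl hμ hc hL h1 h2) := by
    obtain ⟨d, rfl⟩ := Nat.exists_eq_add_of_le hjL
    exact up d le_rfl
  have t1 : Out bag R q (pv n L μ L μ c hμ le_rfl hμ hc hL (by omega) (by omega)) := by
    by_cases hkμ : k = μ
    · subst hkμ
      exact t0
    · exact t0.step htd (htop _ _ _ _ _) (Or.inl ⟨rfl, rfl, rfl, by
        show k + 1 = μ ∨ μ + 1 = k
        omega⟩)
  have t2 : Out bag R q (pv n L k' L μ c hk' le_rfl hμ hc hL h3 h4) := by
    by_cases hkμ : k' = μ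
    · subst hkμ
      exact t1
    · exact t1.step htd (htop _ _ _ _ _) (Or.inl ⟨rfl, rfl, rfl, by
        show μ + 1 = k' ∨ k' + 1 = μ
        omega⟩)
  have down : ∀ d, ∀ i (hi : i ≤ L) (hi1 : 1 ≤ i), j' ≤ i → i + d = L →
      Out bag R q (pv n L k' i μ c hk' hi hμ hc hi1 h3 h4) := by
    intro d
    induction d with
    | zero =>
      intro i hi hi1 hji h
      have : i = L := by omega
      subst this
      exact t2
    | succ d ih =>
      intro i hi hi1 hji h
      refine (ih (i + 1) (by omega) (by omega) (by omega) (by omega)).step htd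
        (havoid' _ _ _ (by omega)) ?_
      exact Or.inr ⟨rfl, Or.inr ⟨rfl, Or.inr ⟨rfl, rfl⟩⟩⟩
  exact down (L - j') j' hjL' h6 le_rfl (by omega)

end main

theorem no_strong {r : ℕ} (hn : 2 * r + 1 ≤ n) (hL : r + 1 ≤ L) :
    ¬ HasStrongBreadth (gr n L) r := by
  rintro ⟨ι, _, T, bag, htd, hbag⟩
  choose s hs hbs using hbag
  have mem : ∀ t v, v ∈ bag t ↔ F (s t) v ≤ r := by
    intro t v
    rw [hbs t, mem_disk]
  have : Nonempty ι := htd.isTree.connected.nonempty
  obtain ⟨m, hm⟩ : ∃ m, ∀ t, (s m).h ≤ (s t).h := by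
    obtain ⟨a, ⟨m, rfl⟩, hm⟩ := wellFounded_lt.has_min (Set.range fun t => (s t).h)
      (Set.range_nonempty _)
    exact ⟨m, fun t => not_lt.1 (hm _ ⟨t, rfl⟩)⟩
  obtain ⟨R, hR⟩ := exists_rooting htd.isTree m
  subst hR
  -- the height of the root
  have hHm : (s R.root).h ≤ r := by
    obtain ⟨t0, ht0⟩ := htd.vertex_mem (bv n L 0 (by omega))
    rw [mem, F_bv] at ht0
    have := hm t0
    omega
  -- an uncovered base vertex
  obtain ⟨y0, hy0, hy0'⟩ := exists_far (X := (s R.root).x) hn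
  obtain ⟨t, ht⟩ := htd.vertex_mem (bv n L y0 hy0)
  have ht2 := ht
  rw [mem, F_bv] at ht2
  obtain ⟨q, hq1, hq2, hq3, hq4⟩ := exists_crossing R
    (fun t => (s R.root).h + dd (s R.root).x (s t).x ≤ (s t).h) (by rw [dd_self]; exact le_rfl)
    t (by
      have := dd_tri (s R.root).x (s t).x y0
      omega)
  have hroot : ¬ Bel R q R.root := not_bel_root R hq3
  -- a base vertex in the adhesion set
  obtain ⟨y, hyn, hy1, hy2⟩ : ∃ y, ∃ hy : y ≤ n, bv n L y hy ∈ bag q ∧
      bv n L y hy ∈ bag (R.par q) := by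
    by_contra hcon
    have hcon' : ∀ y (hy : y ≤ n), ¬ (bv n L y hy ∈ bag q ∧ bv n L y hy ∈ bag (R.par q)) :=
      fun y hy h => hcon ⟨y, hy, h.1, h.2⟩
    have start : Out bag R q (bv n L (s R.root).x (s R.root).hx) := by
      refine ⟨R.root, ?_, hroot⟩
      rw [mem, F_bv, dd_self]
      exact hHm
    exact (out_base htd R q hcon' _ start y0 hy0).false htd (hcon' _ _) ht hq4
  rw [mem, F_bv] at hy1 hy2
  have hmq := hm q
  have t1 := dd_tri (s R.root).x (s (R.par q)).x y
  obtain ⟨k, k', μ, j, j', hk, hk', hμ, h1, h2, h3, h4, h5, h6, h7, h8, h9, h10⟩ :=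
    rails (n := n) (r := r) (y := y) hmq (by omega) (by omega) hy1 (s R.root).hx (s q).hx
  obtain ⟨c, hc, hc1, hc2, hc3⟩ := exists_copy (s R.root).c (s q).c (s (R.par q)).c
  have hjL : j ≤ L := by omega
  have hjL' : j' ≤ L := by omega
  have hfin := cross htd R q hk hk' hμ h1 h2 h3 h4 h5 h6 hjL hjL' hc
    ⟨R.root, by
      rw [mem, F_foreign _ _ hc1]
      show (s R.root).h + j + dd (s R.root).x k ≤ r
      omega, hroot⟩
    (by
      rintro i hi hi1 hji ⟨ha, -⟩
      rw [mem, F_foreign _ _ hc2] at ha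
      have ha' : (s q).h + i + dd (s q).x k ≤ r := ha
      omega)
    (by
      rintro x hx a1 a2 hL ⟨ha, -⟩
      rw [mem, F_foreign _ _ hc2] at ha
      have ha' : (s q).h + L + dd (s q).x x ≤ r := ha
      omega)
    (by
      rintro i hi hi1 hji ⟨-, ha⟩
      rw [mem, F_foreign _ _ hc3] at ha
      have ha' : (s (R.par q)).h + i + dd (s (R.par q)).x k' ≤ r := ha
      have := dd_tri (s R.root).x (s (R.par q)).x k'
      omega)
  refine hfin.false htd ?_ (t := q) ?_ (Bel.refl R q)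
  · rintro ⟨-, ha⟩
    rw [mem, F_foreign _ _ hc3] at ha
    have ha' : (s (R.par q)).h + j' + dd (s (R.par q)).x k' ≤ r := ha
    have := dd_tri (s R.root).x (s (R.par q)).x k'
    omega
  · rw [mem, F_foreign _ _ hc2]
    show (s q).h + j' + dd (s q).x k' ≤ r
    omega

/-! ### A tree decomposition of breadth two -/

/-- the nodes of the decomposition tree -/
abbrev Nd (n L : ℕ) := Fin (n + 1) × Option (Fin 4 × Fin L)

/-- the parent function -/
def par : Nd n L → Nd n L
  | (μ, none) => (⟨μ.1 - 1, by have := μ.2; omega⟩, none)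
  | (μ, some (c, j)) => if j.1 = 0 then (μ, none) else
      (μ, some (c, ⟨j.1 - 1, by have := j.2; omega⟩))

/-- the depth function -/
def dep : Nd n L → ℕ
  | (μ, none) => μ.1
  | (_, some (_, j)) => n + 1 + j.1

/-- the bags -/
def bg : Nd n L → Set (Vx n L)
  | (μ, none) => {v | v.h = 0 ∧ v.x ≤ μ.1 + 1 ∧ μ.1 ≤ v.x + 1}
  | (μ, some (c, j)) => {v | v.x ≤ μ.1 + 1 ∧ μ.1 ≤ v.x + 1 ∧ ((v.h = 0 ∧ j.1 = 0) ∨
      (v.m = μ.1 ∧ v.c = c.1 ∧ v.h ≠ 0 ∧ (v.h = j.1 ∨ v.h = j.1 + 1)))}

theorem mem_bg_none (μ : Fin (n + 1)) (v : Vx n L) :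
    v ∈ bg (μ, none) ↔ v.h = 0 ∧ v.x ≤ μ.1 + 1 ∧ μ.1 ≤ v.x + 1 := Iff.rfl

theorem mem_bg_some (μ : Fin (n + 1)) (c : Fin 4) (j : Fin L) (v : Vx n L) :
    v ∈ bg (μ, some (c, j)) ↔ v.x ≤ μ.1 + 1 ∧ μ.1 ≤ v.x + 1 ∧ ((v.h = 0 ∧ j.1 = 0) ∨
      (v.m = μ.1 ∧ v.c = c.1 ∧ v.h ≠ 0 ∧ (v.h = j.1 ∨ v.h = j.1 + 1))) := Iff.rfl

theorem isTreeDec_bg : IsTreeDec (gr n L) (parGraph (par (n := n) (L := L))) bg where
  isTree := by
    apply isTree_parGraph (dep := dep) ((⟨0, by omega⟩, none) : Nd n L)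
    · rintro ⟨μ, _ | ⟨c, j⟩⟩ h
      · simp only [par, dep]
        have : μ.1 ≠ 0 := by
          intro h0
          apply h
          congr 1
          exact Fin.ext h0
        omega
      · simp only [par]
        split_ifs with h0
        · simp only [dep]
          have := μ.2
          omega
        · simp only [dep]
          omega
    · simp only [par]
  vertex_mem v := by
    by_cases h : v.h = 0
    · refine ⟨(⟨v.x, by have := v.hx; omega⟩, none), ?_⟩
      rw [mem_bg_none]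
      dsimp only
      omega
    · have h1 := v.page h
      have h2 := v.hh
      refine ⟨(⟨v.m, by have := v.hm; omega⟩, some (⟨v.c, v.hc⟩, ⟨v.h - 1, by omega⟩)), ?_⟩
      rw [mem_bg_some]
      dsimp only
      omega
  edge_mem u v huv := by
    have hu1 := u.page
    have hv1 := v.page
    have hu2 := u.hh
    have hv2 := v.hh
    rcases huv with ⟨h1, h2, h3, h4⟩ | ⟨h1, ⟨h2, h3⟩ | ⟨h2, h3⟩⟩
    · by_cases h : u.h = 0
      · refine ⟨(⟨u.x, by have := u.hx; omega⟩, none), ?_, ?_⟩ <;> rw [mem_bg_none] <;>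
          dsimp only <;> omega
      · refine ⟨(⟨u.m, by have := u.hm; omega⟩, some (⟨u.c, u.hc⟩, ⟨u.h - 1, by omega⟩)),
          ?_, ?_⟩ <;> rw [mem_bg_some] <;> dsimp only <;> omega
    · refine ⟨(⟨v.m, by have := v.hm; omega⟩, some (⟨v.c, v.hc⟩, ⟨u.h, by omega⟩)),
        ?_, ?_⟩ <;> rw [mem_bg_some] <;> dsimp only <;> omega
    · refine ⟨(⟨u.m, by have := u.hm; omega⟩, some (⟨u.c, u.hc⟩, ⟨v.h, by omega⟩)),
        ?_, ?_⟩ <;> rw [mem_bg_some] <;> dsimp only <;> omega
  connected v := by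
    by_cases h : v.h = 0
    · apply connected_of_top (dep := dep)
        (τ := ((⟨v.x - 1, by have := v.hx; omega⟩, none) : Nd n L))
      · rw [Set.mem_ofPred_eq, mem_bg_none]
        dsimp only
        omega
      · rintro ⟨μ, _ | ⟨c, j⟩⟩ hs hne
        · have hs' : v ∈ bg (μ, none) := hs
          rw [mem_bg_none] at hs'
          have hne' : μ.1 ≠ v.x - 1 := by
            intro h0
            apply hne
            congr 1
            exact Fin.ext h0
          refine ⟨?_, ?_⟩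
          · simp only [par, dep]
            omega
          · rw [Set.mem_ofPred_eq]
            simp only [par]
            rw [mem_bg_none]
            dsimp only
            omega
        · have hs' : v ∈ bg (μ, some (c, j)) := hs
          rw [mem_bg_some] at hs'
          have hj : j.1 = 0 := by omega
          refine ⟨?_, ?_⟩
          · simp only [par, if_pos hj, dep]
            have := μ.2
            omega
          · rw [Set.mem_ofPred_eq]
            simp only [par, if_pos hj]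
            rw [mem_bg_none]
            omega
    · have h1 := v.page h
      have h2 := v.hh
      apply connected_of_top (dep := dep)
        (τ := ((⟨v.m, by have := v.hm; omega⟩, some (⟨v.c, v.hc⟩, ⟨v.h - 1, by omega⟩)) :
          Nd n L))
      · rw [Set.mem_ofPred_eq, mem_bg_some]
        dsimp only
        omega
      · rintro ⟨μ, _ | ⟨c, j⟩⟩ hs hne
        · have hs' : v ∈ bg (μ, none) := hs
          rw [mem_bg_none] at hs'
          omega
        · have hs' : v ∈ bg (μ, some (c, j)) := hs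
          rw [mem_bg_some] at hs'
          have hm : v.m = μ.1 := by omega
          have hc : v.c = c.1 := by omega
          have hj1 : v.h = j.1 ∨ v.h = j.1 + 1 := by omega
          have hj : j.1 ≠ v.h - 1 := by
            intro h0
            apply hne
            have e1 : μ = ⟨v.m, by have := v.hm; omega⟩ := Fin.ext hm.symm
            have e2 : c = ⟨v.c, v.hc⟩ := Fin.ext hc.symm
            have e3 : j = ⟨v.h - 1, by omega⟩ := Fin.ext h0
            rw [e1, e2, e3]
          have hj0 : j.1 ≠ 0 := by omega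
          refine ⟨?_, ?_⟩
          · simp only [par, if_neg hj0, dep]
            omega
          · rw [Set.mem_ofPred_eq]
            simp only [par, if_neg hj0]
            rw [mem_bg_some]
            dsimp only
            omega

theorem hasBreadth_two : HasBreadth (gr n L) 2 := by
  refine ⟨Nd n L, inferInstance, _, _, isTreeDec_bg, ?_⟩
  rintro ⟨μ, _ | ⟨c, j⟩⟩
  · refine ⟨bv n L μ.1 (by have := μ.2; omega), ?_⟩
    intro v hv
    rw [mem_bg_none] at hv
    rw [mem_disk]
    unfold F bv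
    split_ifs <;> dsimp only at * <;> omega
  · by_cases hj : j.1 = 0
    · refine ⟨bv n L μ.1 (by have := μ.2; omega), ?_⟩
      intro v hv
      rw [mem_bg_some] at hv
      rw [mem_disk]
      unfold F bv
      split_ifs <;> dsimp only at * <;> omega
    · refine ⟨pv n L μ.1 j.1 μ.1 c.1 (by have := μ.2; omega) (by have := j.2; omega)
        (by have := μ.2; omega) c.2 (by omega) (by omega) (by omega), ?_⟩
      intro v hv
      rw [mem_bg_some] at hv
      rw [mem_disk]
      unfold F pv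
      split_ifs <;> dsimp only at * <;> omega

theorem F_le (s y : Vx n L) : F s y ≤ 2 * L + n := by
  have h1 := s.hx
  have h2 := s.hh
  have h3 := y.hx
  have h4 := y.hh
  unfold F
  split_ifs <;> omega

theorem hasStrongBreadth_large : HasStrongBreadth (gr n L) (2 * L + n) := by
  refine ⟨Unit, inferInstance, ⊥, fun _ => Set.univ, ⟨?_, ?_, ?_, ?_⟩, ?_⟩
  · exact SimpleGraph.IsTree.of_subsingleton
  · intro v
    exact ⟨(), Set.mem_univ _⟩
  · intro u v _
    exact ⟨(), Set.mem_univ _, Set.mem_univ _⟩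
  · intro v
    have : Nonempty {t : Unit | v ∈ (Set.univ : Set (Vx n L))} := ⟨⟨(), Set.mem_univ _⟩⟩
    refine SimpleGraph.Connected.mk ?_
    intro a b
    have : a = b := Subtype.ext (Subsingleton.elim _ _)
    rw [this]
  · intro _
    refine ⟨bv n L 0 (Nat.zero_le _), Set.mem_univ _, ?_⟩
    ext v
    rw [mem_disk]
    exact ⟨fun _ => F_le _ _, fun _ => Set.mem_univ _⟩

theorem gr_connected : (gr n L).Connected := by
  have : Nonempty (Vx n L) := ⟨bv n L 0 (Nat.zero_le _)⟩
  refine SimpleGraph.Connected.mk ?_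
  intro a b
  rw [← SimpleGraph.edist_ne_top_iff_reachable, edist_eq]
  exact ENat.natCast_ne_top _

/-- **The answer to Q1 is no**: the strong tree-breadth of connected graphs is not bounded by a
constant multiple of the tree-breadth. -/
theorem result : ¬ ∃ c : ℝ, ∀ (V : Type) [Finite V] (G : SimpleGraph V), G.Connected →
    (stb G : ℝ) ≤ c * tb G := by
  rintro ⟨c, hc⟩
  obtain ⟨N, hN⟩ := exists_nat_ge c
  have h := hc (Vx (4 * N + 1) (2 * N + 1)) (gr (4 * N + 1) (2 * N + 1)) gr_connected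
  have htb : tb (gr (4 * N + 1) (2 * N + 1)) ≤ 2 := Nat.sInf_le hasBreadth_two
  have hstb : 2 * N + 1 ≤ stb (gr (4 * N + 1) (2 * N + 1)) := by
    by_contra hcon
    have h1 : HasStrongBreadth (gr (4 * N + 1) (2 * N + 1))
        (stb (gr (4 * N + 1) (2 * N + 1))) :=
      Nat.sInf_mem (s := {r | HasStrongBreadth (gr (4 * N + 1) (2 * N + 1)) r})
        ⟨_, hasStrongBreadth_large⟩
    exact no_strong (by omega) (by omega) h1
  have h1 : ((2 * N + 1 : ℕ) : ℝ) ≤ (stb (gr (4 * N + 1) (2 * N + 1)) : ℝ) := by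
    exact_mod_cast hstb
  have h2 : (tb (gr (4 * N + 1) (2 * N + 1)) : ℝ) ≤ 2 := by
    exact_mod_cast htb
  have h3 : (0 : ℝ) ≤ (tb (gr (4 * N + 1) (2 * N + 1)) : ℝ) := Nat.cast_nonneg _
  have h4 : (0 : ℝ) ≤ N := Nat.cast_nonneg _
  push_cast at h1
  nlinarith [mul_le_mul_of_nonneg_right hN h3, mul_le_mul_of_nonneg_left h2 h4]

end Pool.Agent.Results.MP_3ffbec_co.NotBounded
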